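import Pool.Agent.N17.FI.C

/-!
# Fano manifolds of large index in projective space are numerically complete intersections

Let `X ⊂ ℙ^N` be a smooth subvariety of codimension `r`, `N ≥ 4 r`. By Barth and Larsen the groups
`H^(2 i)(X, ℤ)`, `i ≤ r`, are generated by the powers of the hyperplane class `h`, and `Pic X = ℤ h`;
so `ω_X = O_X(-ι)` for an integer `ι` (`X` is a Fano manifold if and only if `ι ≥ 1`; `ι` is its index),
and the Chern polynomial `P = T^r - c₁ T^(r-1) + c₂ T^(r-2) - ...` of the normal bundle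
(`c_i(N_X) = c_i h^i`) has integral coefficients; `c₁ = N + 1 - ι` by adjunction. Its complex roots
`β_i` are the Chern roots of `N_X` in units of `h`. `X` is numerically a complete intersection of
hypersurfaces of degrees `a_1, ..., a_r` if and only if `β_i = a_i`; then it has the degree
`a_1 ... a_r`, the Chern classes and the Hilbert polynomial of a complete intersection. The following
is known:

* `N_X(-1)`, a quotient of `T_ℙ(-1)`, is globally generated, so its Chern classes are not negative:
  they are the signed coefficients of `P(T + 1)`;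
* by the theorem of Riemann-Roch `χ(O_X(t))` is the Koszul sum
  `Σ_S (-1)^|S| χ(ℙ^N, O(t - Σ_(i ∈ S) β_i))`;
* if `X` is a Fano manifold, then by Kodaira's theorem `H^q(X, O_X(t)) = 0` for `q > 0`, `t > -ι`; so
  `χ(O_X(t)) = h⁰(O_X(t))` is `0 = χ(O_ℙ(t))` for `-ι < t < 0`, `1 = χ(O_ℙ)` for `t = 0` and, if `X`
  is not contained in a hyperplane, `N + 1 = χ(O_ℙ(1))` for `t = 1` (Zak's linear normality), and
  `χ(O_ℙ(t))` as long as `X` is `t`-normal and not contained in hypersurfaces of degree `t`.

**Theorem.** Fano manifolds `X ⊂ ℙ^N` of codimension `r`, `N ≥ 4 r`, and of index `ι ≥ 2^r - 3`, or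
`ι ≥ 2^r - 5` if `X` is not contained in a hyperplane, are numerically complete intersections. (So all
Fano manifolds of codimension two, of index at least three in codimension three, ...; there is no bound
for the degree, and no asymptotics.) More generally, let `X ⊂ ℙ^N` be smooth of codimension `r` such
that `χ(O_X(t)) = χ(O_ℙ(t)) + (-1)^r χ(O_ℙ(t - c₁))` for `2^r - 2` consecutive integers `t`; then
`X` is numerically a complete intersection.

The proof. The sum over the proper nonempty `S` in the Koszul sum vanishes for an interval of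
`M + 1 ≥ 2^r - 2` integers `t` (by Serre duality, that is, by the symmetry `S ↦ S^c`, the interval
`-ι < t ≤ τ` extends to `-ι - τ ≤ t ≤ τ`). Taking differences in `t` one gets
`Σ_S (-1)^|S| D(y_S) g(y_S) = 0`, `y_S = a - β_S`, for all polynomials `g` of degree at most `M`,
where `D` is a product of different factors `y - j` with integers `j`. There are at most `M + 1` values
`y_S`; so, by interpolation, the formal sum `Π_i (1 - [β_i]) = Σ_S (-1)^|S| [β_S]` is supported on the
integers. This implies that all `β_i` are integers: the entire function `Π_i (1 - exp(β_i s))` has the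
period `2 π i` and a zero of order `r` at `0`, hence also at `2 π i`, so that all `exp(2 π i β_i)` are
`1`. (The first lemma was for real `β_i` a consequence of total positivity; the argument above does not
need that the Chern roots are real.)
-/

set_option autoImplicit false

namespace Pool.Agent.Results.MP_9a3fdb_ag.FanoAllCodimensions

open Polynomial

/-- The Chern roots: the complex roots of `P` with multiplicities. -/
noncomputable def chernRoots (P : ℤ[X]) : Multiset ℂ := (P.map (Int.castRingHom ℂ)).roots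

/-- The Chern numbers of `N_X(-1)`: `(-1)^i` times the coefficient of `T^(r - i)` in `P(T + 1)`,
`i ≤ r`. -/
noncomputable def chernTwist (r : ℕ) (P : ℤ[X]) (i : ℕ) : ℤ :=
  (-1) ^ i * (P.comp (X + 1)).coeff (r - i)

/-- `χ(ℙ^N, O(x)) = (x + 1) ... (x + N) / N!`. -/
noncomputable def chiPN (N : ℕ) (x : ℂ) : ℂ :=
  (∏ j ∈ Finset.range N, (x + j + 1)) / N.factorial

/-- `χ(O_X(x)) = Σ_S (-1)^|S| χ(ℙ^N, O(x - β_S))`, `S` running over the submultisets of the multiset
of the Chern roots of the normal bundle, `β_S` the sum of the elements of `S`. -/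
noncomputable def chiX (N : ℕ) (P : ℤ[X]) (x : ℂ) : ℂ :=
  ((chernRoots P).powerset.map fun S => (-1) ^ Multiset.card S * chiPN N (x - S.sum)).sum

open Pool.Agent.N17.HC in
theorem bin_eq (N : ℕ) (x : ℂ) : bin N (N + x) = chiPN N x := by
  unfold bin chiPN
  congr 1
  rw [← Finset.prod_range_reflect]
  refine Finset.prod_congr rfl fun j hj => ?_
  have hj' := Finset.mem_range.1 hj
  rw [show N - 1 - j = N - (j + 1) by omega, Nat.cast_sub (by omega)]
  push_cast
  ring

open Pool.Agent.N17.HC in
theorem kos_eq (N : ℕ) (P : ℤ[X]) (x : ℂ) : kos N (rootsOf P) (N + x) = chiX N P x := by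
  unfold kos chiX
  change Multiset.sum (Multiset.map _ (Multiset.powerset (chernRoots P))) = _
  congr 1
  refine Multiset.map_congr rfl fun S _ => ?_
  rw [add_sub_assoc, bin_eq]

/-- **Fano manifolds of codimension `r` and index `ι ≥ 2 ^ r - 3 - 2 τ` are numerically complete
intersections (`τ = 0` for all of them, `τ = 1` if they are not contained in a hyperplane).** -/
theorem result (r N : ℕ) (hr : 1 ≤ r) (P : ℤ[X]) (hP : P.Monic) (hd : P.natDegree = r)
    -- the Chern classes of `N_X(-1)` are not negative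
    (hpos : ∀ i ≤ r, 0 ≤ chernTwist r P i) :
    -- Fano manifolds
    (∀ ι τ : ℕ, 1 ≤ ι → ι + 2 * τ ≤ N → 2 ^ r ≤ ι + 2 * τ + 3 →
      -- `ω_X = O_X(-ι)`
      P.coeff (r - 1) = -((N : ℤ) + 1 - ι) →
      -- `χ(O_X(t)) = χ(O_ℙ(t))` for `-ι < t ≤ τ`
      (∀ t : ℤ, -(ι : ℤ) < t → t ≤ τ → chiX N P t = chiPN N t) →
      -- `P` is the polynomial of a complete intersection
      ∃ a : Fin r → ℤ, (∀ i, 1 ≤ a i) ∧ P = ∏ i, (X - C (a i))) ∧
    -- the general case
    (∀ A B : ℤ, A ≤ B → B - A ≤ N → (2 : ℤ) ^ r ≤ B - A + 3 →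
      (∀ t : ℤ, A ≤ t → t ≤ B →
        chiX N P t = chiPN N t + (-1) ^ r * chiPN N (t + P.coeff (r - 1))) →
      ∃ a : Fin r → ℤ, (∀ i, 1 ≤ a i) ∧ P = ∏ i, (X - C (a i))) := by
  obtain ⟨β, hβ⟩ := Pool.Agent.N17.FI.exists_family r P hP hd
  have h0 := Pool.Agent.N17.FI.ne_zero_family r P hP hd hpos β hβ
  have hsum := Pool.Agent.N17.FI.sum_family r hr P hP hd β hβ
  have hfin := Pool.Agent.N17.FI.conclude r P hP hd hpos β hβ
  have hkos : ∀ t : ℤ, ∑ S : Finset (Fin r), (-1 : ℂ) ^ S.card *
      Pool.Agent.N17.HC.bin N (N + t - ∑ i ∈ S, β i) = chiX N P t := by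
    intro t
    rw [← kos_eq, Pool.Agent.N17.FI.kos_family r N P β hβ]
  constructor
  · intro ι τ h1 h2 h3 h4 h5
    refine hfin (Pool.Agent.N17.FI.coreF r N ι τ hr h1 h2 h3 β h0 ?_ fun t ht1 ht2 => ?_)
    · rw [hsum, h4]
      push_cast
      ring
    · rw [hkos, bin_eq]
      exact h5 t ht1 ht2
  · intro A B h1 h2 h3 h4
    refine hfin (Pool.Agent.N17.FI.coreW r N hr A B h1 h2 h3 β h0 _ hsum fun t ht1 ht2 => ?_)
    rw [hkos, h4 t ht1 ht2, bin_eq, ← bin_eq N (t + P.coeff (r - 1))]
    push_cast
    rw [sub_neg_eq_add, add_assoc]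

end Pool.Agent.Results.MP_9a3fdb_ag.FanoAllCodimensions
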