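import Pool.Agent.N998.CT.PSix

set_option autoImplicit false

/-!
# Smooth fourfolds of degree at most 168 in the projective space of dimension six

Let `X ⊂ ℙ^6` be a nonsingular subvariety of dimension four and degree `d` which is not a complete
intersection. By Barth and Larsen `X` is subcanonical, `ω_X = O_X(k)`; there is a vector bundle `E` of
rank two on `ℙ^6` with the Chern classes `c₁ = k + 7`, `c₂ = d` and a section `s` with the scheme of
zeros `X`, and `E|X = N_X` (Serre). We use the following facts.

(1) The Riemann-Roch conditions for `T² - c₁ T + d`.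

(2) `N_X(-1)` is globally generated, with the Chern classes `(c₁ - 2) h`, `(d - c₁ + 1) h²`. Let `M` be
the tautological class on `P = P(N_X(-1))` (line bundle quotients). It is nef, and the intersection
number of `M^(j+1)` and `h^(4-j)` on `P` is `d h_j`, where `h_0 = 1`, `h_1 = c₁ - 2`,
`h_(j+2) = (c₁ - 2) h_(j+1) - (d - c₁ + 1) h_j`. So `h_j ≥ 0` for `j ≤ 4`.

(3) Let `4 d ≤ c₁²`. Then `E` is not stable (Barth, Bogomolov). Let `a` be the largest integer such
that `F = E(-a)` has a section `t ≠ 0`, and `b = c₁ - a ≤ a`. The scheme of zeros `Z` of `t` has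
codimension two; it is not empty, since `E` does not split; and `deg Z = c₂(F) = d - a b > 0`,
`c₁(F) = b - a ≤ 0`. The form `g = ⟨t, s⟩` of degree `b` vanishes on `X`, and no form of smaller degree
does; so `b > 0`. We have `t|X ≠ 0`: otherwise `g` is in the square of the ideal of `X`, and the
partial derivatives of `g` vanish on `X`. So `t` defines an effective divisor of the class
`M - (a - 1) h` on `P`; its intersection number with `M^4` is not negative: `h_4 ≥ (a - 1) h_3`.

(4) In the case (3), `deg Z ≥ 9`. Proof: let `Z_m` be the set of the points where `t` vanishes to the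
order `m` at least. At the points of `Z_m` the leading terms of `t` define a map `φ` from the dual of
`F` to `Sym^m Ω ⊂ Sym^m (O(-1)^7) = O(-m)^M`, where `Ω` are the differentials of `ℙ^6`. Let `S` be a
component of `Z_m` of positive dimension. The map `φ` has rank at most one on `S`, since a map from
`det F* = O(a - b)` to a sum of line bundles `O(-2m)` is zero on `S`. Let `dim S ≥ 2`. Then
`Z_(m+1) ∩ S`, the set of zeros of `φ` on `S`, is of codimension at most two in `S` and not empty:
otherwise there is a surface `S' ⊂ S`, an intersection with general hyperplanes, where `φ` has rank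
one everywhere. So (on a resolution of `S'`) the image of `φ` is a line subbundle `L` of `O(-m)^M`,
the dual of `L` is `O(m) ⊗ Q` with `Q` globally generated, the kernel of `φ` has the class
`(a - b) h - L`, and `c₂(F) h² = L ((a - b) h - L) = - (m h + Q) ((a - b + m) h + Q) ≤ 0`, which is
false. Hence `dim Z_1 = 4`, `dim Z_2 ≥ 2`, and there is a point `p` where `t` vanishes to the order
three. A general plane through `p` meets `Z` in a finite scheme, of degree `deg Z`, and the local
intersection number at `p` is at least nine.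

We show: if `d ≤ 168`, then `(k, d)` is one of the 23 pairs of the list `exceptional` below, with
`d = 74, 84, 90, 96, 101, 108, 114, 120, 124, 128, 134, 136, 140, 141, 144, 150, 156, 157, 162, 164,
165, 166`; and `k² + 14 k + 49 < 4 d` for all these pairs. So every nonsingular fourfold in `ℙ^6`
whose degree is at most 168 and not one of these 22 integers is a complete intersection. (Known:
degree at most 73.)

Proof. Let `x`, `y` be the roots of `T² - (c₁ - 2) T + (d - c₁ + 1)`, `z = d - a b`. If they are real,
`h_4 = y^4 + x h_3 = x^4 + y h_3`, so that (3) gives `(a - 1 - x) h_3 ≤ y^4`, `(a - 1 - y) h_3 ≤ x^4`;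
the product of these inequalities is `z h_3² ≤ (x y)^4`, and `h_3 ≥ 4 (x y)^(3/2)` gives
`16 z ≤ x y = d - c₁ + 1`; by (4), `144 ≤ d - c₁ + 1 ≤ (√d - 1)²` and `d ≥ 169`. If they are not real,
we have finitely many pairs, and (1) and (2) leave the pairs of the list.
-/

open Polynomial

namespace Pool.Agent.Results.MP_9a3fdb_ag.FourfoldsInP6

open Pool.Agent.R920.CH Pool.Agent.N998.CT

/-- The numbers `h_0 = 1`, `h_1 = c₁ - 2`, `h_(j+2) = (c₁ - 2) h_(j+1) - (c₂ - c₁ + 1) h_j`: the
coefficients of `1 / (1 - (c₁ - 2) T + (c₂ - c₁ + 1) T²)`. -/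
def segre (c₁ c₂ : ℤ) : ℕ → ℤ
  | 0 => 1
  | 1 => c₁ - 2
  | j + 2 => (c₁ - 2) * segre c₁ c₂ (j + 1) - (c₂ - c₁ + 1) * segre c₁ c₂ j

/-- The conditions (1) to (4) on the integers `k` and `d`, for a nonsingular subvariety `X` of
dimension four and degree `d` of `ℙ^6`, `ω_X = O_X(k)`, which is not a complete intersection. -/
structure Conditions (k d : ℤ) : Prop where
  pos : 0 < d
  riemannRoch : RiemannRoch 6 (X ^ 2 - C (k + 7) * X + C d)
  positive : ∀ j : ℕ, j ≤ 4 → 0 ≤ segre (k + 7) d j
  unstable : 4 * d ≤ (k + 7) ^ 2 → ∃ a b : ℤ, a + b = k + 7 ∧ 0 < b ∧ b ≤ a ∧ 9 ≤ d - a * b ∧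
    (a - 1) * segre (k + 7) d 3 ≤ segre (k + 7) d 4

/-- The pairs `(k, d)`. -/
def exceptional : List (ℤ × ℤ) :=
  [(8, 74), (9, 84), (10, 90), (10, 96), (11, 101), (12, 108), (12, 114), (12, 120), (12, 124),
   (13, 120), (13, 136), (14, 128), (14, 134), (14, 140), (14, 144), (15, 141), (15, 157),
   (15, 165), (16, 150), (16, 156), (16, 162), (16, 166), (17, 164)]

lemma segre_eq (c₁ c₂ : ℤ) : ∀ j : ℕ, segre c₁ c₂ j = seg (c₁ - 2) (c₂ - c₁ + 1) j := by
  intro j
  induction j using Nat.twoStepInduction with
  | zero => rfl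
  | one => rfl
  | more n ih1 ih2 => rw [segre, seg, ih1, ih2]

/-- **Fourfolds in the projective space of dimension six.** -/
theorem result (k d : ℤ) (h : Conditions k d) (hd : d ≤ 168) :
    (k, d) ∈ exceptional ∧ (k + 7) ^ 2 < 4 * d := by
  rcases lt_or_ge ((k + 7) ^ 2) (4 * d) with hD | hD
  · refine ⟨?_, hD⟩
    have hRR : RiemannRoch 6 (poly2 (k + 7) d) := h.riemannRoch
    have h1 := neg6 (k + 7) d h.pos hd hRR
      (fun j hj => by rw [← segre_eq]; exact h.positive j (by omega)) hD
    have h2 : exceptional = list6.map fun p => (p.1 - 7, p.2) := by decide +kernel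
    rw [h2, List.mem_map]
    exact ⟨(k + 7, d), h1, by simp⟩
  · exfalso
    obtain ⟨a, b, h1, h2, h3, h4, h5⟩ := h.unstable hD
    rw [segre_eq, segre_eq] at h5
    have := pos6 (k + 7) d a b h2 h3 h1 h4 hD h5
    omega

end Pool.Agent.Results.MP_9a3fdb_ag.FourfoldsInP6
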