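import Pool.Agent.N998.CT.HypAll

set_option autoImplicit false

/-!
# The hypersurfaces which contain a smooth subvariety of codimension two

Let `X ⊂ ℙ^N`, `N ≥ 6`, be a nonsingular subvariety of codimension two and degree `d` which is not a
complete intersection. It is subcanonical (Barth-Larsen), `ω_X = O_X(k)`; there is a vector bundle `E`
of rank two on `ℙ^N` with the Chern classes `c₁ = k + N + 1`, `c₂ = d` and a section `s` with the
scheme of zeros `X`, and `E|X = N_X` (Serre). Let `b` be the least degree of a hypersurface which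
contains `X`, and `a = c₁ - b`. We use the following facts.

(1) The Riemann-Roch conditions for `T² - c₁ T + d`.

(2) `N_X(-1)` is globally generated, with the Chern classes `(c₁ - 2) h`, `(d - c₁ + 1) h²`. Let `M` be
the tautological class on `P = P(N_X(-1))` (line bundle quotients). It is nef, and the intersection
number of `M^(j+1)` and `h^(N-2-j)` on `P` is `d h_j`, where `h_0 = 1`, `h_1 = c₁ - 2`,
`h_(j+2) = (c₁ - 2) h_(j+1) - (d - c₁ + 1) h_j`. So `h_j ≥ 0` for `j ≤ N - 2`.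

(3) `H⁰(I_X(m)) = H⁰(E(m - c₁))` for `m < c₁`. So if `b < c₁`, then `a` is the largest integer such that
`F = E(-a)` has a section `t ≠ 0`. If `b > a`, then no `E(-m)`, `2 m ≥ c₁`, has a section (recall
`c₁ ≥ 2`): `E` is stable, and `c₁² < 4 d` (Barth, Bogomolov).

(4) Let `b ≤ a`. The scheme of zeros `Z` of `t` has codimension two; it is not empty, since `E` does
not split; and `deg Z = c₂(F) = d - a b > 0`, `c₁(F) = b - a ≤ 0`. The form `g = ⟨t, s⟩` of degree `b`
vanishes on `X`. We have `t|X ≠ 0`: otherwise `g` is in the square of the ideal of `X`, and the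
partial derivatives of `g` vanish on `X`. So `t` defines an effective divisor of the class
`M - (a - 1) h` on `P`; its intersection number with `M^j`, `h^(N-2-j)` is not negative:
`h_j ≥ (a - 1) h_(j-1)` for `1 ≤ j ≤ N - 2`.

(5) In the case (4), `deg Z ≥ N² / 4` (integral part). Proof: let `Z_m` be the set of the points where
`t` vanishes to the order `m` at least. At the points of `Z_m` the leading terms of `t` define a map
`φ` from the dual of `F` to `Sym^m Ω ⊂ Sym^m (O(-1)^(N+1)) = O(-m)^M`, where `Ω` are the differentials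
of `ℙ^N`. Let `S` be a component of `Z_m` of positive dimension. The map `φ` has rank at most one on
`S`, since a map from `det F* = O(a - b)` to a sum of line bundles `O(-2m)` is zero on `S`. Let
`dim S ≥ 2`. Then `Z_(m+1) ∩ S`, the set of zeros of `φ` on `S`, is of codimension at most two in `S`
and not empty: otherwise there is a surface `S' ⊂ S`, an intersection with general hyperplanes, where
`φ` has rank one everywhere. So (on a resolution of `S'`) the image of `φ` is a line subbundle `L` of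
`O(-m)^M`, the dual of `L` is `O(m) ⊗ Q` with `Q` globally generated, the kernel of `φ` has the class
`(a - b) h - L`, and `c₂(F) h² = L ((a - b) h - L) = - (m h + Q) ((a - b + m) h + Q) ≤ 0`, which is
false. Hence `dim Z_m ≥ N - 2 m` for `2 m ≤ N`. For `m = N / 2` there is a point `p` where `t` vanishes
to the order `m`, and for odd `N` and `m = (N - 1) / 2` a point where `φ` has rank at most one, that
is, `t = (f, f')` with `f` and `f'` of the orders `m` and `m + 1` at least. A general plane through `p`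
meets `Z` in a finite scheme, of degree `deg Z`, and the local intersection number at `p` is at least
`m²`, and at least `m (m + 1)` for odd `N`.

We show for all `N ≥ 12`

  `b - 1 > (3 / 4) (N - 2) (N - 3)^(1/2)`,  `b - 1 > N² / 32`,
  `k + N - 1 > 2 (N - 2) (N - 3)^(1/2)`,  `k + N - 1 > N² / 12`,

and for all sufficiently large `N`

  `b - 1 ≥ (N - 3) [N² / 4]^(1/2)`,  `k + N - 1 ≥ 2 (N - 2) [N² / 4]^(1/2)`.

So a nonsingular subvariety `X` of codimension two is a complete intersection if it is contained in a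
hypersurface of degree at most `(3 / 4) (N - 2) (N - 3)^(1/2)` or `N² / 32`, `N ≥ 12`, or at most
`(N - 3) (N² - 1)^(1/2) / 2` (about `N² / 2`), `N` large; and also if `k` is small: for large `N`, if
`k ≤ (N - 2) (N² - 1)^(1/2) - N` (about `N² - 3 N`). (Known: the first for degree at most `N - 2`, by
Ran and Zak, with linear improvements by Ellia and Franco.)

Proof. Let `D = c₁² - 4 d ≥ 0`, so `b ≤ a`; `z = d - a b`, and `x ≥ y` the roots of
`T² - (c₁ - 2) T + (d - c₁ + 1)`; `τ = a - 1 - x > 0`, so that `b - 1 = y - τ`, `z = τ (τ + x - y)`.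
Since `h_(j+1) = y^(j+1) + x h_j`, (4) for `j + 1 = N - 2` is `τ h_j ≤ y^(j+1)`; put
`D₁ = y^(j+1) - τ h_j ≥ 0`. Then `(b - 1) y^j = τ x h_(j-1) + D₁`, and `(x - y) h_j = x^(j+1) - y^(j+1)`
gives `z y^(2j) = τ² x^(j+1) y^(j-1) + τ D₁ (x - y) y^(j-1)`. With `h_(j-1)² ≥ j² (x y)^(j-1)` and
`2 x h_(j-1) ≥ j² (x - y) y^(j-1)` we get `z j² ≤ (b - 1)²`. In the same way `z (N - 2)² ≤ x y`
(`Results/MP_014caa_ag/QuarticDegree.lean`), and `4 x y ≤ (c₁ - 2)²`. Let `D < 0`. Then (2) gives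
`4 (N - 1)² |D| ≤ 49 (c₁ - 2)²`, where by (1) `|D|` is larger than about `49 N` and `N² / 9` for `N ≥ 12`
and `|D| ≥ N^(4 √e - ε)` for large `N`, by the bound of Burgess with the method of Vinogradov (starting
files). This bounds `c₁ - 2` from below; and `b > c₁ / 2`, or (4) gives
`z (a - 1)^(N-4) ≤ (b - 1)^(N-2)`, so that `b` is not much smaller than `c₁ / 2`.
-/

open Filter Polynomial

namespace Pool.Agent.Results.MP_9a3fdb_ag.HypersurfaceDegree

open Pool.Agent.R920.CH Pool.Agent.R852.BC Pool.Agent.N998.CT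

/-- The numbers `h_0 = 1`, `h_1 = c₁ - 2`, `h_(j+2) = (c₁ - 2) h_(j+1) - (c₂ - c₁ + 1) h_j`: the
coefficients of `1 / (1 - (c₁ - 2) T + (c₂ - c₁ + 1) T²)`. -/
def segre (c₁ c₂ : ℤ) : ℕ → ℤ
  | 0 => 1
  | 1 => c₁ - 2
  | j + 2 => (c₁ - 2) * segre c₁ c₂ (j + 1) - (c₂ - c₁ + 1) * segre c₁ c₂ j

/-- The conditions (1) to (5) on the integers `k`, `d` and `b`, for a nonsingular subvariety `X` of
codimension two and degree `d` of `ℙ^N`, `ω_X = O_X(k)`, which is not a complete intersection; `b` is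
the least degree of a hypersurface which contains `X`. -/
structure Conditions (N : ℕ) (k d b : ℤ) : Prop where
  pos : 0 < d
  pos' : 0 < b
  riemannRoch : RiemannRoch N (X ^ 2 - C (k + N + 1) * X + C d)
  positive : ∀ j : ℕ, j + 2 ≤ N → 0 ≤ segre (k + N + 1) d j
  stable : k + N + 1 < 2 * b → (k + N + 1) ^ 2 < 4 * d
  unstable : ∀ a : ℤ, a + b = k + N + 1 → b ≤ a → (N : ℤ) ^ 2 / 4 ≤ d - a * b ∧
    ∀ j : ℕ, j + 3 ≤ N → (a - 1) * segre (k + N + 1) d j ≤ segre (k + N + 1) d (j + 1)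

lemma segre_eq (c₁ c₂ : ℤ) : ∀ j : ℕ, segre c₁ c₂ j = seg (c₁ - 2) (c₂ - c₁ + 1) j := by
  intro j
  induction j using Nat.twoStepInduction with
  | zero => rfl
  | one => rfl
  | more n ih1 ih2 => rw [segre, seg, ih1, ih2]

/-- the bounds for `N ≥ 12` -/
lemma explicit (N : ℕ) (hN : 12 ≤ N) (k d b : ℤ) (hc : Conditions N k d b) :
    9 * (((N : ℤ) - 2) ^ 2 * (N - 3)) < 16 * (b - 1) ^ 2 ∧ (N : ℤ) ^ 2 < 32 * (b - 1) ∧
      4 * (((N : ℤ) - 2) ^ 2 * (N - 3)) < (k + N - 1) ^ 2 ∧ (N : ℤ) ^ 2 < 12 * (k + N - 1) := by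
  have hN12 : (12 : ℤ) ≤ N := by exact_mod_cast hN
  have hc1 : 0 ≤ k + N + 1 - 2 := by
    have := hc.positive 1 (by omega)
    simpa only [segre] using this
  have e : k + N + 1 - 2 = k + (N : ℤ) - 1 := by ring
  have hb0 := hc.pos'
  rcases lt_or_ge ((k + N + 1) ^ 2) (4 * d) with hD | hD
  · have hRR : RiemannRoch N (poly2 (k + N + 1) d) := hc.riemannRoch
    obtain ⟨g0, g1, g2⟩ := index_neg N hN (k + N + 1) d hRR
      (fun j hj => by rw [← segre_eq]; exact hc.positive j hj) hD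
    refine ⟨?_, ?_, by rw [← e]; exact g1, by rw [← e]; exact g2⟩
    · rcases lt_or_ge (k + N + 1) (2 * b) with hb | hb
      · have h1 : k + N + 1 - 2 < 2 * (b - 1) := by linarith
        have h2 : (k + N + 1 - 2) ^ 2 < (2 * (b - 1)) ^ 2 := pow_lt_pow_left₀ h1 g0.le two_ne_zero
        have h3 : 0 ≤ ((N : ℤ) - 2) ^ 2 * (N - 3) := mul_nonneg (by positivity) (by linarith)
        nlinarith
      · obtain ⟨u1, u2⟩ := hc.unstable (k + N + 1 - b) (by ring) (by linarith)
        exact (hyp_neg N hN (k + N + 1) d (k + N + 1 - b) b hc.pos' (by linarith) (by ring) u1 g1 g2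
          fun j hj => by rw [← segre_eq, ← segre_eq]; exact u2 j hj).1
    · rcases lt_or_ge (k + N + 1) (2 * b) with hb | hb
      · linarith
      · obtain ⟨u1, u2⟩ := hc.unstable (k + N + 1 - b) (by ring) (by linarith)
        exact (hyp_neg N hN (k + N + 1) d (k + N + 1 - b) b hc.pos' (by linarith) (by ring) u1 g1 g2
          fun j hj => by rw [← segre_eq, ← segre_eq]; exact u2 j hj).2
  · have hz0 : (0 : ℤ) < (N : ℤ) ^ 2 / 4 := by
      have h9 : (9 : ℤ) ≤ (N : ℤ) ^ 2 := by nlinarith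
      omega
    have hb : 2 * b ≤ k + N + 1 := by
      by_contra hcon
      push Not at hcon
      have := hc.stable hcon
      linarith
    obtain ⟨u1, u2⟩ := hc.unstable (k + N + 1 - b) (by ring) (by linarith)
    obtain ⟨g1, g2⟩ := hyp_real N (by omega) (k + N + 1) d (k + N + 1 - b) b ((N : ℤ) ^ 2 / 4)
      hc.pos' (by linarith) (by ring) hz0 u1 hD fun j hj => by
        rw [← segre_eq, ← segre_eq]; exact u2 j hj
    rw [e] at g2 hc1
    have hw : (N : ℤ) ^ 2 - 3 ≤ 4 * ((N : ℤ) ^ 2 / 4) := by omega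
    set n : ℤ := (N : ℤ) with hn
    set w : ℤ := n ^ 2 / 4 with hwdef
    have k1 : (n - 3) ^ 2 * (n ^ 2 - 3) ≤ 4 * (b - 1) ^ 2 := by
      have := mul_le_mul_of_nonneg_left hw (show 0 ≤ (n - 3) ^ 2 by positivity)
      linarith
    have k2 : (n - 2) ^ 2 * (n ^ 2 - 3) ≤ (k + n - 1) ^ 2 := by
      have := mul_le_mul_of_nonneg_left hw (show 0 ≤ (n - 2) ^ 2 by positivity)
      linarith
    have q1 : n ^ 2 ≤ 2 * (n - 3) ^ 2 := by nlinarith
    have q2 : n ^ 2 ≤ 2 * (n ^ 2 - 3) := by nlinarith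
    have q3 : n ^ 2 * n ^ 2 ≤ (2 * (n - 3) ^ 2) * (2 * (n ^ 2 - 3)) :=
      mul_le_mul q1 q2 (by positivity) (by positivity)
    have q4 : (n - 3) ^ 2 ≤ (n - 2) ^ 2 := by nlinarith
    have q5 : (n - 3) ^ 2 * (n ^ 2 - 3) ≤ (n - 2) ^ 2 * (n ^ 2 - 3) :=
      mul_le_mul_of_nonneg_right q4 (by nlinarith)
    have q6 : 0 < n ^ 2 * n ^ 2 := by positivity
    refine ⟨?_, ?_, ?_, ?_⟩
    · have r1 : 9 * (n - 2) ^ 2 < 4 * ((n - 3) * (n ^ 2 - 3)) := by nlinarith
      have r2 : (n - 3) * (9 * (n - 2) ^ 2) < (n - 3) * (4 * ((n - 3) * (n ^ 2 - 3))) :=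
        mul_lt_mul_of_pos_left r1 (by linarith)
      nlinarith
    · by_contra hcon
      push Not at hcon
      have r1 : (32 * (b - 1)) ^ 2 ≤ (n ^ 2) ^ 2 := pow_le_pow_left₀ (by linarith) hcon 2
      nlinarith
    · have r1 : 4 * (n - 3) < n ^ 2 - 3 := by nlinarith
      have r2 : (n - 2) ^ 2 * (4 * (n - 3)) < (n - 2) ^ 2 * (n ^ 2 - 3) :=
        mul_lt_mul_of_pos_left r1 (by nlinarith)
      linarith
    · by_contra hcon
      push Not at hcon
      have r1 : (12 * (k + n - 1)) ^ 2 ≤ (n ^ 2) ^ 2 := pow_le_pow_left₀ (by linarith) hcon 2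
      nlinarith

/-- **The hypersurfaces containing a subvariety of codimension two, and its index.** -/
theorem result :
    (∀ N : ℕ, 12 ≤ N → ∀ k d b : ℤ, Conditions N k d b →
      9 * (((N : ℤ) - 2) ^ 2 * (N - 3)) < 16 * (b - 1) ^ 2 ∧ (N : ℤ) ^ 2 < 32 * (b - 1) ∧
      4 * (((N : ℤ) - 2) ^ 2 * (N - 3)) < (k + N - 1) ^ 2 ∧ (N : ℤ) ^ 2 < 12 * (k + N - 1)) ∧
    ∃ N₀ : ℕ, ∀ N : ℕ, N₀ ≤ N → ∀ k d b : ℤ, Conditions N k d b →
      ((N : ℤ) - 3) ^ 2 * ((N : ℤ) ^ 2 / 4) ≤ (b - 1) ^ 2 ∧ 0 < b ∧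
      4 * (((N : ℤ) - 2) ^ 2 * ((N : ℤ) ^ 2 / 4)) ≤ (k + N - 1) ^ 2 ∧ 0 < k + N := by
  refine ⟨fun N hN k d b hc => explicit N hN k d b hc, ?_⟩
  refine eventually_atTop.mp ?_
  filter_upwards [Pool.Agent.N998.CT.stable (1 / 4) (by norm_num), eventually_ge_atTop 9]
    with N h1 hN k d b hc
  have hN9 : (9 : ℤ) ≤ N := by exact_mod_cast hN
  have hz0 : (0 : ℤ) < (N : ℤ) ^ 2 / 4 := by
    have h9 : (9 : ℤ) ≤ (N : ℤ) ^ 2 := by nlinarith
    omega
  have hc1 : 0 ≤ k + N + 1 - 2 := by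
    have := hc.positive 1 (by omega)
    simpa only [segre] using this
  rcases lt_or_ge ((k + N + 1) ^ 2) (4 * d) with hD | hD
  · have hRR : RiemannRoch N (poly2 (k + N + 1) d) := hc.riemannRoch
    obtain ⟨-, g2, -⟩ := h1 (k + N + 1) d (fun j hj => by
      rw [← segre_eq]; exact hc.positive j hj) hRR hD
    have hN1 : (1 : ℝ) ≤ N := by exact_mod_cast (by omega : 1 ≤ N)
    have h2 : (N : ℝ) ^ (4 : ℝ) ≤ (N : ℝ) ^ (2 * Real.exp (1 / 2) + 1 - 1 / 4) := by
      apply Real.rpow_le_rpow_of_exponent_le hN1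
      have := exp_half_bounds.1
      linarith
    have h3 : (N : ℝ) ^ 4 ≤ ((k + N + 1 : ℤ) : ℝ) := by
      rw [show (4 : ℝ) = ((4 : ℕ) : ℝ) by norm_num, Real.rpow_natCast] at h2
      exact h2.trans g2
    have h4 : (N : ℤ) ^ 4 ≤ k + N + 1 := by exact_mod_cast h3
    have h5 : 4 * ((N : ℤ) ^ 2 / 4) ≤ (N : ℤ) ^ 2 := by omega
    have hb : (N : ℤ) ^ 2 ≤ b - 1 := by
      rcases lt_or_ge (k + N + 1) (2 * b) with hb | hb
      · have e : (N : ℤ) ^ 4 = (N : ℤ) ^ 2 * (N : ℤ) ^ 2 := by ring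
        have e2 : (81 : ℤ) ≤ (N : ℤ) ^ 2 := by nlinarith
        nlinarith
      · obtain ⟨u1, u2⟩ := hc.unstable (k + N + 1 - b) (by ring) (by linarith)
        exact hyp_large N hN (k + N + 1) d (k + N + 1 - b) b hc.pos' (by linarith) (by ring)
          (by linarith) h4 fun j hj => by rw [← segre_eq, ← segre_eq]; exact u2 j hj
    set n : ℤ := (N : ℤ) with hn
    set w : ℤ := n ^ 2 / 4 with hw
    have e4 : n ^ 4 = n ^ 2 * n ^ 2 := by ring
    have e2 : (81 : ℤ) ≤ n ^ 2 := by nlinarith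
    have h6 : (n - 2) ^ 2 * (4 * w) ≤ n ^ 2 * n ^ 2 := by
      apply mul_le_mul _ h5 (by positivity) (by positivity)
      nlinarith
    have h7 : (n - 3) ^ 2 * w ≤ (n - 2) ^ 2 * w := by
      apply mul_le_mul_of_nonneg_right _ hz0.le
      nlinarith
    have h8 : n ^ 2 * n ^ 2 ≤ (b - 1) ^ 2 := by nlinarith
    refine ⟨?_, hc.pos', ?_, by linarith⟩
    · have : 0 ≤ (n - 2) ^ 2 * w := by positivity
      linarith
    · have h9 : n ^ 2 ≤ k + n - 1 := by nlinarith
      nlinarith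
  · have hb : 2 * b ≤ k + N + 1 := by
      by_contra hcon
      push Not at hcon
      have := hc.stable hcon
      linarith
    obtain ⟨u1, u2⟩ := hc.unstable (k + N + 1 - b) (by ring) (by linarith)
    obtain ⟨g1, g2⟩ := hyp_real N (by omega) (k + N + 1) d (k + N + 1 - b) b ((N : ℤ) ^ 2 / 4)
      hc.pos' (by linarith) (by ring) hz0 u1 hD fun j hj => by
        rw [← segre_eq, ← segre_eq]; exact u2 j hj
    have e : k + N + 1 - 2 = k + (N : ℤ) - 1 := by ring
    rw [e] at g2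
    refine ⟨g1, hc.pos', g2, by linarith⟩

end Pool.Agent.Results.MP_9a3fdb_ag.HypersurfaceDegree
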