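import Pool.Agent.N17.HC.KOS
import Pool.Agent.N17.HC.LSP
import Pool.Agent.N17.HC.ALG
import Pool.Agent.N17.HC.ANA
import Pool.Agent.N17.HC.FAC
import Pool.Agent.N17.HC.CUBE
import Pool.Agent.N17.HC.REC
import Pool.Agent.N17.HC.CHR
import Pool.Agent.N17.HC.DIV
import Pool.Agent.N17.HC.CUB
import Pool.Agent.N17.HC.FIN
import Pool.Agent.R852.BC.Main
import Pool.Agent.N17.CK.ROOT
import Pool.Agent.N17.CK.BD
import Pool.Agent.N17.CK.SPL
import Pool.Agent.N17.CK.POSEND
import Pool.Agent.N17.CK.MAIN

/-!
# Smooth subvarieties of codimension three with small canonical class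

Let `X ⊂ ℙ^N` be a smooth subvariety of codimension `r`, `N ≥ 4 r`. By Barth and Larsen the groups
`H^(2 i)(X, ℤ)`, `i ≤ r`, are generated by the powers of the hyperplane class `h`, and `Pic X = ℤ h`;
so `ω_X = O_X(k)` for some `k`, and the Chern polynomial `P = T^r - c₁ T^(r-1) + c₂ T^(r-2) - ...` of
the normal bundle (`c_i(N_X) = c_i h^i`) has integral coefficients, `c₁ = k + N + 1` by adjunction.
Its complex roots `β_i` are the Chern roots of `N_X` in units of `h`, and `c_r = β_1 ... β_r` is the
degree of `X` (self-intersection formula). `X` is numerically a complete intersection of hypersurfaces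
of degrees `a_1, ..., a_r` if and only if `β_i = a_i`; then it has the degree, the canonical class, the
Chern classes and the Hilbert polynomial of a complete intersection. The following is known:

* `N_X(-1)`, a quotient of `T_ℙ(-1)`, is globally generated, so its Schur polynomials are not negative
  (for all nef bundles: Demailly, Peternell, Schneider): `c_i ≥ 0` and `c_1 c_i - c_(i+1) ≥ 0` for the
  Chern classes of `N_X(-1)`; these are the signed coefficients of `P(T + 1)`;
* `χ(O_X(t))` is an integer for all `t`; by the theorem of Riemann-Roch it is the Koszul sum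
  `Σ_S (-1)^|S| χ(ℙ^N, O(t - Σ_(i ∈ S) β_i))`;
* `χ(N_X^*(t))` is an integer for all `t`; it is `Σ_i χ(O_X(t - β_i))`.

We show: for all `r ≥ 1`, `ε > 0` and all `N ≥ N₀(r, ε)`: if `ω_X = O_X(k)` and

  `k ≤ N ^ (2 √e / 3 - ε)`, `2 √e / 3 = 1.099...`

(so for all Fano and Calabi-Yau subvarieties, and without any bound for the degree of `X`) then every
Chern root of degree at most three over `ℚ` is a positive integer; for `r ≤ 3` all the Chern roots are
positive integers: `X` is numerically a complete intersection.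

The proof. (1) The two integrality conditions imply that `P` splits modulo every prime
`r < p ≤ N - 2 r + 1` which does not divide the degree (project HC: see
`Results/MP_014caa_ag/CodimensionThreeFour.lean`). (2) By the Schur positivity the Chern roots of
`N_X(-1)` have absolute value at most `2 c_1(N_X(-1)) = 2 (k + N + 1 - r)`: so the discriminant of a
factor of degree three is at most `C N ^ (4 √e - 6 ε)`. (3) The discriminant is a square modulo all
these primes, so it is a square by the bound of Burgess and the trick of Vinogradov. (4) If `Q` is a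
cubic polynomial whose discriminant `s²` is a square and does not split, then by cubic reciprocity
there is a cubic Dirichlet character modulo a number `≤ 9 |s|` which is `1` at all primes which split
`Q`: a contradiction to the inequality of Polya and Vinogradov and the trick of Vinogradov.
-/

set_option autoImplicit false

namespace Pool.Agent.Results.MP_9a3fdb_ag.SmallCanonicalClass

open Polynomial

/-- The Chern roots: the complex roots of `P` with multiplicities. -/
noncomputable def chernRoots (P : ℤ[X]) : Multiset ℂ := (P.map (Int.castRingHom ℂ)).roots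

/-- The Chern numbers of `N_X(-1)`: `(-1)^i` times the coefficient of `T^(r - i)` in `P(T + 1)`,
`i ≤ r`. -/
noncomputable def chernTwist (r : ℕ) (P : ℤ[X]) (i : ℕ) : ℤ :=
  (-1) ^ i * (P.comp (X + 1)).coeff (r - i)

/-- `χ(ℙ^N, O(x)) = (x + 1) ... (x + N) / N!`. -/
noncomputable def chiPN (N : ℕ) (x : ℂ) : ℂ :=
  (∏ j ∈ Finset.range N, (x + j + 1)) / N.factorial

/-- `χ(O_X(x)) = Σ_S (-1)^|S| χ(ℙ^N, O(x - β_S))`, `S` running over the submultisets of the multiset
of the Chern roots of the normal bundle, `β_S` the sum of the elements of `S`. -/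
noncomputable def chiX (N : ℕ) (P : ℤ[X]) (x : ℂ) : ℂ :=
  ((chernRoots P).powerset.map fun S => (-1) ^ Multiset.card S * chiPN N (x - S.sum)).sum

/-- `χ(N_X^*(x)) = Σ_i χ(O_X(x - β_i))`. -/
noncomputable def chiConormal (N : ℕ) (P : ℤ[X]) (x : ℂ) : ℂ :=
  ((chernRoots P).map fun b => chiX N P (x - b)).sum

open Pool.Agent.N17.HC in
theorem bin_eq (N : ℕ) (x : ℂ) : bin N (N + x) = chiPN N x := by
  unfold bin chiPN
  congr 1
  rw [← Finset.prod_range_reflect]
  refine Finset.prod_congr rfl fun j hj => ?_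
  have hj' := Finset.mem_range.1 hj
  rw [show N - 1 - j = N - (j + 1) by omega, Nat.cast_sub (by omega)]
  push_cast
  ring

open Pool.Agent.N17.HC in
theorem kos_eq (N : ℕ) (P : ℤ[X]) (x : ℂ) : kos N (rootsOf P) (N + x) = chiX N P x := by
  unfold kos chiX
  change Multiset.sum (Multiset.map _ (Multiset.powerset (chernRoots P))) = _
  congr 1
  refine Multiset.map_congr rfl fun S _ => ?_
  rw [add_sub_assoc, bin_eq]

/-- **Smooth subvarieties of codimension `r ≤ 3` with `ω_X = O_X(k)`, `k ≤ N ^ (2 √e / 3 - ε)`, are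
numerically complete intersections; in every codimension the Chern roots of degree at most three over
`ℚ` of such subvarieties are positive integers.** -/
theorem result (r : ℕ) (hr : 1 ≤ r) (ε : ℝ) (hε : 0 < ε) : ∃ N₀ : ℕ, ∀ N : ℕ, N₀ ≤ N →
    ∀ P : ℤ[X], P.Monic → P.natDegree = r →
    -- the Schur polynomials `c_i` and `c_1 c_i - c_(i+1)` of `N_X(-1)` are not negative
    (∀ i ≤ r, 0 ≤ chernTwist r P i) →
    (∀ i < r, chernTwist r P (i + 1) ≤ chernTwist r P 1 * chernTwist r P i) →
    -- the Euler characteristics of `O_X(t)` and of `N_X^*(t)` are integers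
    (∀ t : ℤ, ∃ z : ℤ, chiX N P t = z) →
    (∀ t : ℤ, ∃ z : ℤ, chiConormal N P t = z) →
    -- `ω_X = O_X(k)`: `c_1(N_X) = k + N + 1`
    ∀ k : ℤ, P.coeff (r - 1) = - (k + N + 1) →
    (k : ℝ) ≤ (N : ℝ) ^ (2 * Real.exp (1 / 2) / 3 - ε) →
    -- the irreducible factors of `P` of degree at most three are `T - a`, `a ≥ 1`
    (∀ Q : ℤ[X], Q.Monic → Irreducible Q → Q ∣ P → Q.natDegree ≤ 3 →
      ∃ a : ℤ, 1 ≤ a ∧ Q = X - C a) ∧
    -- if `r ≤ 3`, then `P` is the polynomial of a complete intersection
    (r ≤ 3 → ∃ a : Fin r → ℤ, (∀ i, 1 ≤ a i) ∧ P = ∏ i, (X - C (a i))) := by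
  have hM2 : Pool.Agent.N17.HC.S_M2 := Pool.Agent.R852.BC.main2
  have hCUB := Pool.Agent.N17.HC.t_CUB Pool.Agent.N17.HC.t_ALG hM2 Pool.Agent.N17.HC.t_FAC
    Pool.Agent.N17.HC.t_CUBE Pool.Agent.N17.HC.t_REC Pool.Agent.N17.HC.t_CHR
    Pool.Agent.N17.HC.t_DIV Pool.Agent.N17.HC.t_ANA
  obtain ⟨N₀, h⟩ := Pool.Agent.N17.CK.final Pool.Agent.N17.HC.t_KOS Pool.Agent.N17.HC.t_LSP hCUB
    hM2 Pool.Agent.N17.CK.t_ROOT Pool.Agent.N17.CK.t_BD Pool.Agent.N17.CK.t_SPL
    Pool.Agent.N17.CK.t_POS Pool.Agent.N17.CK.t_END r hr ε hε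
  refine ⟨N₀, fun N hN P hP hd hpos hsch h1 h2 k hk hle =>
    h N hN P hP hd hpos hsch ?_ ?_ k hk hle⟩
  · intro t
    obtain ⟨z, hz⟩ := h1 t
    exact ⟨z, by rw [kos_eq]; exact hz⟩
  · intro t
    obtain ⟨z, hz⟩ := h2 t
    refine ⟨z, ?_⟩
    rw [← hz]
    unfold chiConormal
    change Multiset.sum (Multiset.map _ (chernRoots P)) = _
    congr 1
    refine Multiset.map_congr rfl fun b _ => ?_
    rw [add_sub_assoc, kos_eq]

end Pool.Agent.Results.MP_9a3fdb_ag.SmallCanonicalClass
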